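import Mathlib

set_option autoImplicit false

namespace Pool.Agent.Results.MP_154e02_al.KernelCondition

open Matrix

/-- The `H`-adjoint `X^[*] = H⁻¹ X^* H` of a square matrix. -/
noncomputable def hAdjoint {𝕜 : Type} [RCLike 𝕜] {n : ℕ} (H X : Matrix (Fin n) (Fin n) 𝕜) :
    Matrix (Fin n) (Fin n) 𝕜 :=
  H⁻¹ * Xᴴ * H

/-- The kernel of a square matrix acting on column vectors. -/
noncomputable def kernel {𝕜 : Type} [RCLike 𝕜] {n : ℕ} (X : Matrix (Fin n) (Fin n) 𝕜) :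
    Submodule 𝕜 (Fin n → 𝕜) :=
  LinearMap.ker X.mulVecLin

/-- The assertion of the question for `n × n` matrices over `𝕜`. -/
def Holds (𝕜 : Type) [RCLike 𝕜] (n : ℕ) : Prop :=
  ∀ H X Y : Matrix (Fin n) (Fin n) 𝕜, IsUnit H → H.IsHermitian →
    Y * Y = hAdjoint H X * X → kernel Y = kernel X →
    ∃ A : Matrix (Fin n) (Fin n) 𝕜,
      hAdjoint H A = A ∧ A * A = hAdjoint H X * X ∧ kernel A = kernel X

lemma mem_kernel {𝕜 : Type} [RCLike 𝕜] {n : ℕ} (X : Matrix (Fin n) (Fin n) 𝕜) (v : Fin n → 𝕜) :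
    v ∈ kernel X ↔ X *ᵥ v = 0 := by
  unfold kernel
  rw [LinearMap.mem_ker, Matrix.mulVecLin_apply]

lemma holds_zero (𝕜 : Type) [RCLike 𝕜] : Holds 𝕜 0 := by
  intro H X Y _ _ _ _
  refine ⟨0, Subsingleton.elim _ _, Subsingleton.elim _ _, ?_⟩
  ext v
  rw [mem_kernel, mem_kernel]
  exact ⟨fun _ => Subsingleton.elim _ _, fun _ => Subsingleton.elim _ _⟩

lemma holds_one (𝕜 : Type) [RCLike 𝕜] : Holds 𝕜 1 := by
  intro H X Y hH hherm _ _
  have hH0 : H 0 0 ≠ 0 := by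
    rw [Matrix.isUnit_iff_isUnit_det, Matrix.det_fin_one] at hH
    exact hH.ne_zero
  have hinv : H⁻¹ * H = 1 := by
    rw [Matrix.isUnit_iff_isUnit_det] at hH
    exact Matrix.nonsing_inv_mul _ hH
  have hinv0 : H⁻¹ 0 0 * H 0 0 = 1 := by
    have := congrFun (congrFun hinv 0) 0
    simpa [Matrix.mul_apply] using this
  have hadj : ∀ Z : Matrix (Fin 1) (Fin 1) 𝕜, hAdjoint H Z 0 0 = star (Z 0 0) := by
    intro Z
    unfold hAdjoint
    simp only [Matrix.mul_apply, Finset.univ_unique, Fin.default_eq_zero, Finset.sum_singleton,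
      Matrix.conjTranspose_apply]
    calc H⁻¹ 0 0 * star (Z 0 0) * H 0 0 = (H⁻¹ 0 0 * H 0 0) * star (Z 0 0) := by ring
      _ = star (Z 0 0) := by rw [hinv0, one_mul]
  have hext : ∀ U V : Matrix (Fin 1) (Fin 1) 𝕜, U 0 0 = V 0 0 → U = V := by
    intro U V h
    ext i j
    rw [Subsingleton.elim i 0, Subsingleton.elim j 0, h]
  obtain ⟨A, hA⟩ : ∃ A : Matrix (Fin 1) (Fin 1) 𝕜, A 0 0 = ((‖X 0 0‖ : ℝ) : 𝕜) :=
    ⟨Matrix.of (fun _ _ => ((‖X 0 0‖ : ℝ) : 𝕜)), rfl⟩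
  have hmul : ∀ U V : Matrix (Fin 1) (Fin 1) 𝕜, (U * V) 0 0 = U 0 0 * V 0 0 := by
    intro U V
    simp [Matrix.mul_apply]
  refine ⟨A, ?_, ?_, ?_⟩
  · apply hext
    rw [hadj, hA]
    simp
  · apply hext
    rw [hmul, hmul, hadj, hA]
    have h2 := RCLike.conj_mul (X 0 0)
    rw [← sq]
    exact h2.symm
  · ext v
    rw [mem_kernel, mem_kernel]
    have h3 : ∀ (Z : Matrix (Fin 1) (Fin 1) 𝕜), Z *ᵥ v = 0 ↔ Z 0 0 * v 0 = 0 := by
      intro Z
      constructor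
      · intro h
        have := congrFun h 0
        simpa [Matrix.mulVec, dotProduct] using this
      · intro h
        ext i
        rw [Subsingleton.elim i 0]
        simpa [Matrix.mulVec, dotProduct] using h
    rw [h3, h3, hA]
    simp

/-- signature matrix -/
noncomputable def Hm (𝕜 : Type) [RCLike 𝕜] (k : ℕ) : Matrix (Fin (k + 2)) (Fin (k + 2)) 𝕜 :=
  Matrix.diagonal (fun i => if i = 1 then -1 else 1)

/-- the matrix without polar decomposition -/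
noncomputable def Xm (𝕜 : Type) [RCLike 𝕜] (k : ℕ) : Matrix (Fin (k + 2)) (Fin (k + 2)) 𝕜 :=
  Matrix.diagonal (fun i => if i = 0 then 0 else 1) + Matrix.single 0 1 1

/-- its square -/
noncomputable def Bm (𝕜 : Type) [RCLike 𝕜] (k : ℕ) : Matrix (Fin (k + 2)) (Fin (k + 2)) 𝕜 :=
  Matrix.diagonal (fun i => if i = 0 then 0 else if i = 1 then 0 else 1)

/-- a square root -/
noncomputable def Ym (𝕜 : Type) [RCLike 𝕜] (k : ℕ) : Matrix (Fin (k + 2)) (Fin (k + 2)) 𝕜 :=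
  Bm 𝕜 k + Matrix.single 0 1 1

lemma Hm_mul (𝕜 : Type) [RCLike 𝕜] (k : ℕ) : Hm 𝕜 k * Hm 𝕜 k = 1 := by
  unfold Hm
  rw [Matrix.diagonal_mul_diagonal, ← Matrix.diagonal_one]
  congr 1
  ext i
  split_ifs <;> simp

lemma Hm_inv (𝕜 : Type) [RCLike 𝕜] (k : ℕ) : (Hm 𝕜 k)⁻¹ = Hm 𝕜 k :=
  Matrix.inv_eq_right_inv (Hm_mul 𝕜 k)

lemma Hm_herm (𝕜 : Type) [RCLike 𝕜] (k : ℕ) : (Hm 𝕜 k).IsHermitian := by
  unfold Hm
  rw [Matrix.IsHermitian, Matrix.diagonal_conjTranspose]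
  congr 1
  ext i
  simp only [Pi.star_apply]
  split_ifs <;> simp

lemma Ym_sq (𝕜 : Type) [RCLike 𝕜] (k : ℕ) : Ym 𝕜 k * Ym 𝕜 k = Bm 𝕜 k := by
  unfold Ym Bm
  rw [add_mul, mul_add, mul_add, Matrix.diagonal_mul_diagonal]
  have h1 : Matrix.diagonal (fun i : Fin (k + 2) => if i = 0 then (0 : 𝕜) else if i = 1 then 0 else 1)
      * Matrix.single 0 1 (1 : 𝕜) = 0 := by
    ext i j
    rw [Matrix.diagonal_mul]
    by_cases h : i = 0
    · simp [h]
    · rw [Matrix.single_apply_of_row_ne (Ne.symm h)]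
      simp
  have h2 : Matrix.single 0 1 (1 : 𝕜) *
      Matrix.diagonal (fun i : Fin (k + 2) => if i = 0 then (0 : 𝕜) else if i = 1 then 0 else 1)
      = 0 := by
    ext i j
    rw [Matrix.mul_diagonal]
    by_cases h : j = 1
    · simp [h]
    · rw [Matrix.single_apply_of_col_ne _ _ (Ne.symm h)]
      simp
  have h3 : (Matrix.single 0 1 (1 : 𝕜) : Matrix (Fin (k + 2)) (Fin (k + 2)) 𝕜)
      * Matrix.single 0 1 (1 : 𝕜) = 0 := by
    rw [Matrix.single_mul_single_of_ne]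
    exact Fin.zero_ne_one.symm
  rw [h1, h2, h3]
  simp only [add_zero]
  congr 1
  ext i
  split_ifs <;> simp

lemma diag_mul_single {𝕜 : Type} [RCLike 𝕜] {n : ℕ} (d : Fin n → 𝕜) (i j : Fin n) (c : 𝕜) :
    Matrix.diagonal d * Matrix.single i j c = Matrix.single i j (d i * c) := by
  ext a b
  rw [Matrix.diagonal_mul, Matrix.single_apply, Matrix.single_apply]
  split_ifs with h
  · rw [h.1]
  · simp

lemma single_mul_diag {𝕜 : Type} [RCLike 𝕜] {n : ℕ} (d : Fin n → 𝕜) (i j : Fin n) (c : 𝕜) :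
    Matrix.single i j c * Matrix.diagonal d = Matrix.single i j (c * d j) := by
  ext a b
  rw [Matrix.mul_diagonal, Matrix.single_apply, Matrix.single_apply]
  split_ifs with h
  · rw [h.2]
  · simp

lemma Xm_adj (𝕜 : Type) [RCLike 𝕜] (k : ℕ) :
    hAdjoint (Hm 𝕜 k) (Xm 𝕜 k) * Xm 𝕜 k = Bm 𝕜 k := by
  unfold hAdjoint
  rw [Hm_inv]
  have h10 : (1 : Fin (k + 2)) ≠ 0 := Fin.zero_ne_one.symm
  have hXs : (Xm 𝕜 k)ᴴ = Matrix.diagonal (fun i => if i = 0 then 0 else 1) + Matrix.single 1 0 1 := by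
    unfold Xm
    rw [Matrix.conjTranspose_add, Matrix.diagonal_conjTranspose, Matrix.conjTranspose_single]
    congr 1
    · congr 1
      ext i
      simp only [Pi.star_apply]
      split_ifs <;> simp
    · simp
  have hHX : Hm 𝕜 k * Xm 𝕜 k
      = Matrix.diagonal (fun i => if i = 0 then 0 else if i = 1 then -1 else 1) + Matrix.single 0 1 1 := by
    unfold Hm Xm
    rw [mul_add, Matrix.diagonal_mul_diagonal, diag_mul_single]
    congr 1
    · congr 1
      ext i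
      by_cases h0 : i = 0
      · simp [h0]
      · simp [h0]
    · simp
  have hXHX : (Xm 𝕜 k)ᴴ * (Hm 𝕜 k * Xm 𝕜 k) = Bm 𝕜 k := by
    rw [hXs, hHX, add_mul, mul_add, mul_add, Matrix.diagonal_mul_diagonal, diag_mul_single,
      single_mul_diag, Matrix.single_mul_single_same]
    unfold Bm
    ext i j
    simp only [Matrix.add_apply, Matrix.diagonal_apply, Matrix.single_apply]
    by_cases h0 : i = 0
    · subst h0
      by_cases hj : (0 : Fin (k + 2)) = j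
      · subst hj; simp [h10]
      · simp [hj, h10]
    · by_cases h1 : i = 1
      · subst h1
        by_cases hj : (1 : Fin (k + 2)) = j
        · subst hj; simp [h10]
        · simp [hj, h10]
      · by_cases hj : i = j
        · subst hj; simp [h0, h1, Ne.symm h0, Ne.symm h1]
        · simp [hj, h0, h1, Ne.symm h0, Ne.symm h1]
  have hHB : Hm 𝕜 k * Bm 𝕜 k = Bm 𝕜 k := by
    unfold Hm Bm
    rw [Matrix.diagonal_mul_diagonal]
    congr 1
    ext i
    by_cases h0 : i = 0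
    · simp [h0]
    · by_cases h1 : i = 1
      · simp [h1]
      · simp [h0, h1]
  calc Hm 𝕜 k * (Xm 𝕜 k)ᴴ * Hm 𝕜 k * Xm 𝕜 k = Hm 𝕜 k * ((Xm 𝕜 k)ᴴ * (Hm 𝕜 k * Xm 𝕜 k)) := by
        simp only [Matrix.mul_assoc]
    _ = Bm 𝕜 k := by rw [hXHX, hHB]

/-- action of Xm on a vector -/
lemma Xm_mulVec (𝕜 : Type) [RCLike 𝕜] (k : ℕ) (v : Fin (k + 2) → 𝕜) (i : Fin (k + 2)) :
    (Xm 𝕜 k *ᵥ v) i = (if i = 0 then v 1 else v i) := by
  unfold Xm
  rw [Matrix.add_mulVec, Pi.add_apply, Matrix.mulVec_diagonal, Matrix.single_mulVec]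
  by_cases h0 : i = 0
  · subst h0; simp
  · simp [h0]

lemma Ym_mulVec (𝕜 : Type) [RCLike 𝕜] (k : ℕ) (v : Fin (k + 2) → 𝕜) (i : Fin (k + 2)) :
    (Ym 𝕜 k *ᵥ v) i = (if i = 0 then v 1 else if i = 1 then 0 else v i) := by
  unfold Ym Bm
  rw [Matrix.add_mulVec, Pi.add_apply, Matrix.mulVec_diagonal, Matrix.single_mulVec]
  by_cases h0 : i = 0
  · subst h0; simp
  · by_cases h1 : i = 1
    · subst h1; simp
    · simp [h0, h1]

lemma kernel_X (𝕜 : Type) [RCLike 𝕜] (k : ℕ) (v : Fin (k + 2) → 𝕜) :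
    v ∈ kernel (Xm 𝕜 k) ↔ ∀ i, i ≠ 0 → v i = 0 := by
  have h10 : (1 : Fin (k + 2)) ≠ 0 := Fin.zero_ne_one.symm
  rw [mem_kernel]
  constructor
  · intro h i hi
    have := congrFun h i
    rw [Xm_mulVec, if_neg hi] at this
    exact this
  · intro h
    ext i
    rw [Xm_mulVec]
    by_cases hi : i = 0
    · rw [if_pos hi]; exact h 1 h10
    · rw [if_neg hi]; exact h i hi

lemma kernel_Y (𝕜 : Type) [RCLike 𝕜] (k : ℕ) (v : Fin (k + 2) → 𝕜) :
    v ∈ kernel (Ym 𝕜 k) ↔ ∀ i, i ≠ 0 → v i = 0 := by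
  have h10 : (1 : Fin (k + 2)) ≠ 0 := Fin.zero_ne_one.symm
  rw [mem_kernel]
  constructor
  · intro h i hi
    by_cases h1 : i = 1
    · subst h1
      have := congrFun h 0
      rw [Ym_mulVec, if_pos rfl] at this
      exact this
    · have := congrFun h i
      rw [Ym_mulVec, if_neg hi, if_neg h1] at this
      exact this
  · intro h
    ext i
    rw [Ym_mulVec]
    by_cases hi : i = 0
    · rw [if_pos hi]; exact h 1 h10
    · rw [if_neg hi]
      by_cases h1 : i = 1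
      · rw [if_pos h1]; rfl
      · rw [if_neg h1]; exact h i hi

lemma not_holds (𝕜 : Type) [RCLike 𝕜] (k : ℕ) : ¬ Holds 𝕜 (k + 2) := by
  intro hall
  have h10 : (1 : Fin (k + 2)) ≠ 0 := Fin.zero_ne_one.symm
  have hunit : IsUnit (Hm 𝕜 k) := IsUnit.of_mul_eq_one _ (Hm_mul 𝕜 k)
  obtain ⟨A, hA1, hA2, hA3⟩ := hall (Hm 𝕜 k) (Xm 𝕜 k) (Ym 𝕜 k) hunit (Hm_herm 𝕜 k)
    (by rw [Xm_adj, Ym_sq]) (by ext v; rw [kernel_X, kernel_Y])
  rw [Xm_adj] at hA2
  -- e_0 lies in the kernel of A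
  have he0 : A *ᵥ (Pi.single 0 1) = 0 := by
    rw [← mem_kernel, hA3, kernel_X]
    intro i hi
    exact Pi.single_eq_of_ne hi _
  -- hence column zero of A vanishes
  have hcol : ∀ i, A i 0 = 0 := by
    intro i
    have := congrFun he0 i
    simpa using this
  -- self-adjointness entrywise: A^* H = H A
  have hself : Aᴴ * Hm 𝕜 k = Hm 𝕜 k * A := by
    have h1 : Hm 𝕜 k * (hAdjoint (Hm 𝕜 k) A) = Hm 𝕜 k * A := by rw [hA1]
    unfold hAdjoint at h1
    rw [Hm_inv] at h1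
    rw [← h1, ← Matrix.mul_assoc, ← Matrix.mul_assoc, Hm_mul, Matrix.one_mul]
  have hrow : ∀ j, A 0 j = 0 := by
    intro j
    have h1 := congrFun (congrFun hself 0) j
    unfold Hm at h1
    rw [Matrix.mul_diagonal, Matrix.diagonal_mul, Matrix.conjTranspose_apply, hcol j] at h1
    simpa using h1.symm
  -- e_1 is mapped to a multiple of e_0, hence to zero
  have hAe1 : A *ᵥ (A *ᵥ (Pi.single 1 1)) = 0 := by
    rw [Matrix.mulVec_mulVec, hA2]
    unfold Bm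
    ext i
    rw [Matrix.mulVec_diagonal]
    by_cases h1 : i = 1
    · subst h1; simp [h10]
    · simp [h1]
  have hmem : (A *ᵥ (Pi.single 1 1)) ∈ kernel (Xm 𝕜 k) := by
    rw [← hA3, mem_kernel]; exact hAe1
  rw [kernel_X] at hmem
  have hAe1' : A *ᵥ (Pi.single 1 1) = 0 := by
    ext i
    by_cases hi : i = 0
    · subst hi
      simp [hrow 1]
    · exact hmem i hi
  have hmem2 : (Pi.single 1 1 : Fin (k + 2) → 𝕜) ∈ kernel (Xm 𝕜 k) := by
    rw [← hA3, mem_kernel]; exact hAe1'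
  rw [kernel_X] at hmem2
  have := hmem2 1 h10
  simp at this

/-- For `𝕜 = ℝ` or `ℂ`, the assertion of the question holds for `n × n` matrices iff `n ≤ 1`. -/
theorem result (𝕜 : Type) [RCLike 𝕜] (n : ℕ) : Holds 𝕜 n ↔ n ≤ 1 := by
  constructor
  · intro h
    by_contra hn
    obtain ⟨k, rfl⟩ : ∃ k, n = k + 2 := ⟨n - 2, by omega⟩
    exact not_holds 𝕜 k h
  · intro h
    interval_cases n
    · exact holds_zero 𝕜
    · exact holds_one 𝕜

end Pool.Agent.Results.MP_154e02_al.KernelCondition
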