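import Mathlib

set_option autoImplicit false

namespace Pool.Agent.Results.MP_154e02_al.NoSelfadjointRoot

open Matrix

/-- The `H`-adjoint `X^[*] = H⁻¹ X^* H` of a square matrix. -/
noncomputable def hAdj {𝕜 : Type} [RCLike 𝕜] {n : ℕ} (H X : Matrix (Fin n) (Fin n) 𝕜) :
    Matrix (Fin n) (Fin n) 𝕜 :=
  H⁻¹ * Xᴴ * H

/-- Sign obstruction: a diagonal matrix with a negative eigenvalue whose eigenspace is positive
has no selfadjoint square root. -/
lemma obstruction {𝕜 : Type} [RCLike 𝕜] {n : ℕ} (h b : Fin n → ℝ) (i₀ : Fin n)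
    (hneg : b i₀ < 0) (hpos : ∀ j, b j = b i₀ → h j = 1) (hh : ∀ j, h j * h j = 1)
    (A : Matrix (Fin n) (Fin n) 𝕜)
    (hA : hAdj (Matrix.diagonal (fun i => (h i : 𝕜))) A = A) :
    A * A ≠ Matrix.diagonal (fun i => (b i : 𝕜)) := by
  intro hsq
  have hHH : Matrix.diagonal (fun i => (h i : 𝕜)) * Matrix.diagonal (fun i => (h i : 𝕜)) = 1 := by
    rw [Matrix.diagonal_mul_diagonal, ← Matrix.diagonal_one]
    congr 1
    ext i
    rw [← RCLike.ofReal_mul, hh i, RCLike.ofReal_one]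
  have hinv : (Matrix.diagonal (fun i => (h i : 𝕜)))⁻¹ = Matrix.diagonal (fun i => (h i : 𝕜)) :=
    Matrix.inv_eq_right_inv hHH
  -- entries
  have hent : ∀ i j, A i j = (h i : 𝕜) * star (A j i) * (h j : 𝕜) := by
    intro i j
    have h1 := congrFun (congrFun hA i) j
    unfold hAdj at h1
    rw [hinv, Matrix.mul_diagonal, Matrix.diagonal_mul, Matrix.conjTranspose_apply] at h1
    exact h1.symm
  have hcomm : ∀ i, b i ≠ b i₀ → A i i₀ = 0 := by
    intro i hi
    have h1 : (A * (A * A)) i i₀ = ((A * A) * A) i i₀ := by rw [Matrix.mul_assoc]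
    rw [hsq, Matrix.mul_diagonal, Matrix.diagonal_mul] at h1
    have h2 : ((b i : 𝕜) - (b i₀ : 𝕜)) * A i i₀ = 0 := by
      rw [sub_mul, ← h1]; ring
    rcases mul_eq_zero.1 h2 with h3 | h3
    · exfalso
      rw [sub_eq_zero] at h3
      exact hi (by exact_mod_cast h3)
    · exact h3
  have hdiag : (b i₀ : 𝕜) = ∑ k, ((‖A k i₀‖ ^ 2 : ℝ) : 𝕜) := by
    have h1 := congrFun (congrFun hsq i₀) i₀
    rw [Matrix.diagonal_apply_eq, Matrix.mul_apply] at h1
    rw [← h1]
    apply Finset.sum_congr rfl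
    intro k _
    by_cases hk : b k = b i₀
    · rw [hent i₀ k, hpos i₀ rfl, hpos k hk]
      have := RCLike.conj_mul (A k i₀)
      simp only [RCLike.ofReal_one, one_mul, mul_one]
      rw [RCLike.star_def, this]
      push_cast
      rfl
    · rw [hcomm k hk]; simp
  rw [← RCLike.ofReal_sum] at hdiag
  have h2 : b i₀ = ∑ k, ‖A k i₀‖ ^ 2 := by exact_mod_cast hdiag
  have h3 : 0 ≤ ∑ k, ‖A k i₀‖ ^ 2 := Finset.sum_nonneg (fun _ _ => by positivity)
  linarith

/-- monomial matrix `e_j ↦ c_j e_{σ j}` -/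
def mono {𝕜 : Type} [RCLike 𝕜] {n : ℕ} (σ : Fin n → Fin n) (c : Fin n → 𝕜) :
    Matrix (Fin n) (Fin n) 𝕜 :=
  Matrix.of (fun i j => if i = σ j then c j else 0)

lemma mono_mul {𝕜 : Type} [RCLike 𝕜] {n : ℕ} (σ τ : Fin n → Fin n) (c d : Fin n → 𝕜) :
    mono σ c * mono τ d = mono (fun j => σ (τ j)) (fun j => c (τ j) * d j) := by
  ext i j
  rw [Matrix.mul_apply]
  simp only [mono, Matrix.of_apply]
  simp only [mul_ite, mul_zero, Finset.sum_ite_eq', Finset.mem_univ, if_true]
  rw [ite_mul, zero_mul]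

lemma mono_id {𝕜 : Type} [RCLike 𝕜] {n : ℕ} (c : Fin n → 𝕜) :
    mono (fun j => j) c = Matrix.diagonal c := by
  ext i j
  simp only [mono, Matrix.of_apply, Matrix.diagonal_apply]
  split_ifs with h
  · rw [h]
  · rfl

lemma mono_conjTranspose {𝕜 : Type} [RCLike 𝕜] {n : ℕ} (σ : Fin n → Fin n) (hσ : ∀ j, σ (σ j) = j)
    (c : Fin n → 𝕜) : (mono σ c)ᴴ = mono σ (fun j => star (c (σ j))) := by
  ext i j
  simp only [mono, Matrix.of_apply, Matrix.conjTranspose_apply]
  by_cases h : i = σ j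
  · subst h
    simp [hσ]
  · have h' : ¬ j = σ i := by
      intro h2
      apply h
      rw [h2, hσ]
    simp [h, h']

/-- the general construction -/
lemma construction {𝕜 : Type} [RCLike 𝕜] {n : ℕ} (h b c : Fin n → ℝ) (d : Fin n → 𝕜)
    (σ τ : Fin n → Fin n) (hσ : ∀ j, σ (σ j) = j) (hτ : ∀ j, τ (τ j) = j)
    (hh : ∀ j, h j * h j = 1) (hb : ∀ j, b j = h j * h (σ j) * c j ^ 2) (hc : ∀ j, c j ≠ 0)
    (hd : ∀ j, d (τ j) * d j = (b j : 𝕜))
    (i₀ : Fin n) (hneg : b i₀ < 0) (hpos : ∀ j, b j = b i₀ → h j = 1) :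
    ∃ H X Y : Matrix (Fin n) (Fin n) 𝕜, IsUnit H ∧ H.IsHermitian ∧ IsUnit X ∧ IsUnit Y ∧
      Y * Y = hAdj H X * X ∧
      ∀ A : Matrix (Fin n) (Fin n) 𝕜, hAdj H A = A → A * A ≠ hAdj H X * X := by
  have hHH : Matrix.diagonal (fun i => (h i : 𝕜)) * Matrix.diagonal (fun i => (h i : 𝕜)) = 1 := by
    rw [Matrix.diagonal_mul_diagonal, ← Matrix.diagonal_one]
    congr 1
    ext i
    rw [← RCLike.ofReal_mul, hh i, RCLike.ofReal_one]
  have hinv : (Matrix.diagonal (fun i => (h i : 𝕜)))⁻¹ = Matrix.diagonal (fun i => (h i : 𝕜)) :=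
    Matrix.inv_eq_right_inv hHH
  have hB : hAdj (Matrix.diagonal (fun i => (h i : 𝕜))) (mono σ (fun j => (c j : 𝕜)))
      * mono σ (fun j => (c j : 𝕜)) = Matrix.diagonal (fun i => (b i : 𝕜)) := by
    unfold hAdj
    rw [hinv, mono_conjTranspose σ hσ, ← mono_id, ← mono_id, mono_mul, mono_mul, mono_mul]
    simp only [hσ]
    congr 1
    ext j
    rw [hb j]
    simp only [RCLike.star_def, RCLike.conj_ofReal]
    push_cast
    ring
  refine ⟨Matrix.diagonal (fun i => (h i : 𝕜)), mono σ (fun j => (c j : 𝕜)), mono τ d,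
    IsUnit.of_mul_eq_one _ hHH, ?_, ?_, ?_, ?_, ?_⟩
  · rw [Matrix.IsHermitian, Matrix.diagonal_conjTranspose]
    congr 1
    ext i
    simp only [Pi.star_apply, RCLike.star_def, RCLike.conj_ofReal]
  · apply IsUnit.of_mul_eq_one (mono σ (fun j => ((c (σ j))⁻¹ : 𝕜)))
    rw [mono_mul]
    simp only [hσ]
    rw [mono_id, ← Matrix.diagonal_one]
    congr 1
    ext j
    have : (c (σ j) : 𝕜) ≠ 0 := by exact_mod_cast hc (σ j)
    exact mul_inv_cancel₀ this
  · have hdne : ∀ j, d j ≠ 0 := by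
      intro j hj
      have h1 := hd j
      rw [hj, mul_zero] at h1
      have h2 : b j = 0 := by exact_mod_cast h1.symm
      have h3 := hb j
      rw [h2] at h3
      have h4 := hh j
      have h5 := hh (σ j)
      have h6 : (h j * h (σ j) * c j ^ 2) ^ 2 = 0 := by rw [← h3]; ring
      have h7 : (h j * h (σ j) * c j ^ 2) ^ 2 = (h j * h j) * (h (σ j) * h (σ j)) * (c j ^ 2) ^ 2 := by
        ring
      rw [h7, h4, h5, one_mul, one_mul] at h6
      exact hc j (by simpa using h6)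
    apply IsUnit.of_mul_eq_one (mono τ (fun j => (d (τ j))⁻¹))
    rw [mono_mul]
    simp only [hτ]
    rw [mono_id, ← Matrix.diagonal_one]
    congr 1
    ext j
    exact mul_inv_cancel₀ (hdne (τ j))
  · rw [hB, mono_mul]
    simp only [hτ]
    rw [mono_id]
    congr 1
    ext j
    exact hd j
  · intro A hA
    rw [hB]
    exact obstruction h b i₀ hneg hpos hh A hA

/-- There are a hermitian invertible `H`, an invertible `X` and an invertible matrix `Y` with
`Y² = X^[*] X` such that `X^[*] X` has no `H`-selfadjoint square root whatsoever. -/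
def NoRootExample (𝕜 : Type) [RCLike 𝕜] (n : ℕ) : Prop :=
  ∃ H X Y : Matrix (Fin n) (Fin n) 𝕜, IsUnit H ∧ H.IsHermitian ∧ IsUnit X ∧ IsUnit Y ∧
    Y * Y = hAdj H X * X ∧
    ∀ A : Matrix (Fin n) (Fin n) 𝕜, hAdj H A = A → A * A ≠ hAdj H X * X

/-- Such examples exist over `ℂ` in every dimension `n ≥ 2` and over `ℝ` in every dimension
`n ≥ 4`. -/
theorem result : (∀ n : ℕ, 2 ≤ n → NoRootExample ℂ n) ∧ (∀ n : ℕ, 4 ≤ n → NoRootExample ℝ n) := by
  constructor
  · intro n hn
    refine construction (𝕜 := ℂ) (n := n)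
      (fun j => if j.val = 1 then -1 else 1)
      (fun j => if j.val = 0 then -1 else if j.val = 1 then -4 else 1)
      (fun j => if j.val = 1 then 2 else 1)
      (fun j => if j.val = 0 then Complex.I else if j.val = 1 then 2 * Complex.I else 1)
      (fun j => ⟨if j.val = 0 then 1 else if j.val = 1 then 0 else j.val, by
        split_ifs <;> omega⟩)
      (fun j => j) ?_ ?_ ?_ ?_ ?_ ?_ ⟨0, by omega⟩ ?_ ?_
    · intro j
      rcases j with ⟨_ | _ | k, hj⟩ <;> simp
    · intro j; rfl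
    · intro j
      rcases j with ⟨_ | _ | k, hj⟩ <;> simp
    · intro j
      rcases j with ⟨_ | _ | k, hj⟩ <;> norm_num
    · intro j
      rcases j with ⟨_ | _ | k, hj⟩ <;> simp
    · intro j
      rcases j with ⟨_ | _ | k, hj⟩
      · simp
      · have := Complex.I_mul_I
        simp
        linear_combination 4 * this
      · simp
    · norm_num
    · intro j hj'
      rcases j with ⟨_ | _ | k, hj⟩
      · simp
      · norm_num at hj'
      · simp
  · intro n hn
    refine construction (𝕜 := ℝ) (n := n)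
      (fun j => if j.val = 2 ∨ j.val = 3 then -1 else 1)
      (fun j => if j.val < 2 then -1 else if j.val < 4 then -4 else 1)
      (fun j => if j.val = 2 ∨ j.val = 3 then 2 else 1)
      (fun j => if j.val = 0 then -1 else if j.val = 2 then -2 else if j.val = 3 then 2 else 1)
      (fun j => ⟨if j.val < 2 then j.val + 2 else if j.val < 4 then j.val - 2 else j.val, by
        split_ifs <;> omega⟩)
      (fun j => ⟨if j.val = 0 then 1 else if j.val = 1 then 0 else if j.val = 2 then 3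
        else if j.val = 3 then 2 else j.val, by split_ifs <;> omega⟩) ?_ ?_ ?_ ?_ ?_ ?_
        ⟨0, by omega⟩ ?_ ?_
    · intro j
      rcases j with ⟨_ | _ | _ | _ | k, hj⟩
      iterate 4 simp
      have h4 : ¬ (k + 1 + 1 + 1 + 1 < 4) := by omega
      simp [h4]
    · intro j
      rcases j with ⟨_ | _ | _ | _ | k, hj⟩ <;> simp
    · intro j
      rcases j with ⟨_ | _ | _ | _ | k, hj⟩ <;> simp
    · intro j
      have h4 : ∀ k : ℕ, ¬ (k + 1 + 1 + 1 + 1 < 4) := by intro k; omega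
      have h2 : ∀ k : ℕ, ¬ (k + 1 + 1 + 1 + 1 = 2) := by intro k; omega
      have h3 : ∀ k : ℕ, ¬ (k + 1 + 1 + 1 + 1 = 3) := by intro k; omega
      rcases j with ⟨_ | _ | _ | _ | k, hj⟩
      iterate 4 norm_num
      simp [h2, h3, h4]
    · intro j
      rcases j with ⟨_ | _ | _ | _ | k, hj⟩ <;> simp
    · intro j
      have h4 : ∀ k : ℕ, ¬ (k + 1 + 1 + 1 + 1 < 4) := by intro k; omega
      have h2 : ∀ k : ℕ, ¬ (k + 1 + 1 + 1 + 1 = 2) := by intro k; omega
      have h3 : ∀ k : ℕ, ¬ (k + 1 + 1 + 1 + 1 = 3) := by intro k; omega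
      rcases j with ⟨_ | _ | _ | _ | k, hj⟩
      iterate 4 norm_num
      simp [h2, h3, h4]
    · norm_num
    · intro j hj'
      rcases j with ⟨_ | _ | _ | _ | k, hj⟩
      · simp
      · simp
      · norm_num at hj'
      · norm_num at hj'
      · simp

end Pool.Agent.Results.MP_154e02_al.NoSelfadjointRoot
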